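import Pool.Agent.Q31.GLV.Stm

set_option autoImplicit false

namespace Pool.Agent.Q126.GLV

open Module Cardinal Submodule Pool.Agent.Q31.GLV

theorem t5a : S_T5A := by
  intro F V _ _ _ hV hμ H hH U hU hNT
  obtain ⟨μ, hμ0, hμ1⟩ := hμ
  obtain ⟨k, hkH, hkU, hk⟩ := hNT (LinearEquiv.smulOfNeZero F U μ hμ0)
  have hkU' : ∀ u ∈ U, k u = μ • u := by
    intro u hu
    have := hkU ⟨u, hu⟩
    simpa using this
  let γ : V →ₗ[F] U := LinearMap.codRestrict U ((k : V →ₗ[F] V) - LinearMap.id)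
    (fun v => by simpa using hk v)
  have hγ : ∀ v, (γ v : V) = k v - v := fun v => rfl
  have hγU : ∀ u ∈ U, (γ u : V) = (μ - 1) • u := by
    intro u hu
    rw [hγ, hkU' u hu, sub_smul, one_smul]
  have hμ2 : μ - 1 ≠ 0 := sub_ne_zero.2 hμ1
  have hC : IsCompl U (LinearMap.ker γ) := by
    refine ⟨?_, ?_⟩
    · rw [Submodule.disjoint_def]
      intro u hu h0
      have h1 := hγU u hu
      rw [LinearMap.mem_ker.1 h0] at h1
      have h2 : (μ - 1) • u = 0 := by simpa using h1.symm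
      exact (smul_eq_zero.1 h2).resolve_left hμ2
    · rw [codisjoint_iff, eq_top_iff]
      intro v _
      rw [Submodule.mem_sup]
      refine ⟨(μ - 1)⁻¹ • (γ v : V), U.smul_mem _ (γ v).2, v - (μ - 1)⁻¹ • (γ v : V), ?_, by abel⟩
      rw [LinearMap.mem_ker]
      apply Subtype.ext
      rw [map_sub, Submodule.coe_sub, hγU _ (U.smul_mem _ (γ v).2), smul_smul,
        mul_inv_cancel₀ hμ2, one_smul, sub_self]
      rfl
  refine ⟨LinearMap.ker γ, hC, ?_⟩
  intro C₁ hC₁ hr1 hr2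
  -- the space W
  have hUW : U ≤ U ⊔ C₁ := le_sup_left
  have hCW : C₁ ≤ U ⊔ C₁ := le_sup_right
  have hW : Large (U ⊔ C₁) := by
    refine ⟨le_antisymm (Submodule.rank_le _) ?_, hr2⟩
    rw [← hU.1]
    exact Submodule.rank_mono hUW
  obtain ⟨p⟩ : Nonempty (C₁ ≃ₗ[F] U) := by
    apply nonempty_linearEquiv_of_rank_eq
    rw [hr1, hU.1]
  obtain ⟨p', hp'⟩ := LinearMap.exists_extend (p : C₁ →ₗ[F] U)
  have hp : ∀ c (hc : c ∈ C₁), p' c = p ⟨c, hc⟩ := by
    intro c hc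
    have := LinearMap.congr_fun hp' ⟨c, hc⟩
    simpa using this
  let q : V →ₗ[F] V := (LinearMap.ker γ).subtype ∘ₗ (LinearMap.ker γ).linearProjOfIsCompl U hC.symm
  have hq0 : ∀ u ∈ U, q u = 0 := by
    intro u hu
    have : (LinearMap.ker γ).linearProjOfIsCompl U hC.symm u = 0 :=
      (Submodule.linearProjOfIsCompl_apply_eq_zero_iff hC.symm).2 hu
    simp [q, this]
  have hq1 : ∀ c ∈ LinearMap.ker γ, q c = c := by
    intro c hc
    have := Submodule.linearProjOfIsCompl_apply_left hC.symm ⟨c, hc⟩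
    have h2 : (LinearMap.ker γ).linearProjOfIsCompl U hC.symm c = ⟨c, hc⟩ := this
    simp [q, h2]
  let π : V →ₗ[F] U := p' ∘ₗ q
  have hπ0 : ∀ u ∈ U, π u = 0 := by
    intro u hu
    simp [π, hq0 u hu]
  have hπ1 : ∀ c (hc : c ∈ C₁), π c = p ⟨c, hc⟩ := by
    intro c hc
    simp [π, hq1 c (hC₁ hc), hp c hc]
  let T : ↥(U ⊔ C₁) →ₗ[F] ↥(U ⊔ C₁) := (Submodule.inclusion hUW) ∘ₗ π ∘ₗ (U ⊔ C₁).subtype
  have hT : ∀ w : ↥(U ⊔ C₁), ((T w : ↥(U ⊔ C₁)) : V) = (π (w : V) : V) := fun w => rfl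
  have hTT : ∀ w : ↥(U ⊔ C₁), T (T w) = 0 := by
    intro w
    apply Subtype.ext
    rw [hT, hT, hπ0 _ (π (w : V)).2]
    rfl
  let g : ↥(U ⊔ C₁) ≃ₗ[F] ↥(U ⊔ C₁) := LinearEquiv.ofLinear (LinearMap.id + T) (LinearMap.id - T)
    (by
      ext1 w
      simp [hTT])
    (by
      ext1 w
      simp [hTT])
  have hg : ∀ w : ↥(U ⊔ C₁), ((g w : ↥(U ⊔ C₁)) : V) = (w : V) + (π (w : V) : V) := fun w => rfl
  obtain ⟨h, hhH, hh⟩ := hH _ hW g
  have hh' : ∀ w ∈ U ⊔ C₁, h w = w + (π w : V) := by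
    intro w hw
    rw [← hg ⟨w, hw⟩]
    exact hh ⟨w, hw⟩
  have hhU : ∀ u ∈ U, h u = u := by
    intro u hu
    rw [hh' u (hUW hu), hπ0 u hu]
    simp
  refine ⟨γ ∘ₗ ((h : V →ₗ[F] V) - LinearMap.id), ⟨?_, ?_⟩, ?_⟩
  · intro u
    simp [hhU u u.2]
  · refine ⟨h⁻¹ * k * h * k⁻¹, ?_, ?_⟩
    · exact H.mul_mem (H.mul_mem (H.mul_mem (H.inv_mem hhH) hkH) hhH) (H.inv_mem hkH)
    · intro v
      obtain ⟨w, rfl⟩ := k.surjective v
      have e1 : (h⁻¹ * k * h * k⁻¹) (k w) = h.symm (k (h w)) := by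
        change h.symm (k (h (k.symm (k w)))) = _
        rw [LinearEquiv.symm_apply_apply]
      rw [e1]
      have e2 : k (h w) = h w + (γ (h w) : V) := by rw [hγ]; abel
      have e3 : k w = w + (γ w : V) := by rw [hγ]; abel
      have e4 : h.symm (k (h w)) = w + (γ (h w) : V) := by
        apply h.injective
        rw [LinearEquiv.apply_symm_apply, map_add, hhU _ (γ (h w)).2, e2]
      rw [e4]
      have e5 : h (k w) - k w = h w - w := by
        rw [e3, map_add, hhU _ (γ w).2]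
        abel
      have e6 : (γ ∘ₗ ((h : V →ₗ[F] V) - LinearMap.id)) (k w) = γ (h w) - γ w := by
        change γ (h (k w) - k w) = _
        rw [e5, map_sub]
      rw [e6, Submodule.coe_sub]
      conv_rhs => rw [e3]
      abel
  · intro v hv h0
    have h1 : (γ ∘ₗ ((h : V →ₗ[F] V) - LinearMap.id)) v = γ (π v : V) := by
      change γ (h v - v) = _
      rw [hh' v (hCW hv)]
      congr 1
      abel
    rw [h1] at h0
    have h2 := hγU _ (π v).2
    rw [h0] at h2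
    have h3 : (μ - 1) • (π v : V) = 0 := by simpa using h2.symm
    have h4 : (π v : V) = 0 := (smul_eq_zero.1 h3).resolve_left hμ2
    have h5 : π v = 0 := Subtype.ext h4
    rw [hπ1 v hv] at h5
    have h6 := p.map_eq_zero_iff.1 h5
    exact congrArg Subtype.val h6

end Pool.Agent.Q126.GLV
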